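import Mathlib
import Pool.Agent.Helper759.YaoYaoDefs
import Pool.Agent.Helper759.YaoYaoProof

/-!
# Yao-Yao graphs are never spanners when every point chooses the orientation of its cones
-/

namespace Pool.Agent.Results.MP_391ffd_co.NeverSpanner

open Pool.Agent.Helper759.YaoYao

/-- For every `k ≥ 2` and every `t` there are a finite point set `P` in the plane and an
orientation `θ u` of the `k` cones at each point `u` such that the Yao-Yao graph `YY_k(P)` is not
a `t`-spanner, whatever rule `lt` is used to break ties. -/
theorem result (k : ℕ) (hk : 2 ≤ k) (t : ℝ) :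
    ∃ (P : Finset ℂ) (θ : ℂ → ℝ), ∀ lt : ℂ × ℂ → ℂ × ℂ → Prop,
      ¬ IsSpanner t (YaoYao k P θ lt) :=
  main k hk t

end Pool.Agent.Results.MP_391ffd_co.NeverSpanner
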